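import Pool.Agent.HF.Stmts

/-!
# Squad HF: module SIN
-/

namespace Pool.Agent.HF

open Pool.Agent.Glue Pool.Agent.FB Pool.Agent.CD

namespace H63S

variable {G D : Type} [Group G] [DivisionRing D]

theorem DS_mono {sg : G →* D} {S T : Set G} (h : S ⊆ T) : DS sg S ≤ DS sg T :=
  Subfield.closure_mono (Set.image_mono h)

theorem sg_mem_DS {sg : G →* D} {S : Set G} {g : G} (h : g ∈ S) : sg g ∈ DS sg S :=
  Subfield.subset_closure ⟨g, h, rfl⟩

theorem sg_cancel (sg : G →* D) (u : G) : sg u * sg u⁻¹ = 1 := by
  rw [← map_mul, mul_inv_cancel, map_one]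

theorem sg_cancel' (sg : G →* D) (u : G) : sg u⁻¹ * sg u = 1 := by
  rw [← map_mul, inv_mul_cancel, map_one]

theorem sg_ne_zero (sg : G →* D) (u : G) : sg u ≠ 0 := by
  intro h
  have := sg_cancel sg u
  rw [h, zero_mul] at this
  exact zero_ne_one this

theorem L_zero {sg : G →* D} {H : Subgroup G} (E : Ell sg H) : E.L 0 = 0 := by
  have h := E.L_add 0 (zero_mem _) 0 (zero_mem _)
  rw [add_zero] at h
  exact left_eq_add.mp h

theorem L_sum {sg : G →* D} {H : Subgroup G} (E : Ell sg H) {ι : Type} (s : Finset ι)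
    (f : ι → D) (hf : ∀ i ∈ s, f i ∈ DS sg (H : Set G)) :
    E.L (∑ i ∈ s, f i) = ∑ i ∈ s, E.L (f i) := by
  classical
  induction s using Finset.induction_on with
  | empty => rw [Finset.sum_empty, Finset.sum_empty, L_zero]
  | insert a s ha ih =>
    rw [Finset.sum_insert ha, Finset.sum_insert ha, E.L_add, ih]
    · exact fun i hi => hf i (Finset.mem_insert_of_mem hi)
    · exact hf a (Finset.mem_insert_self a s)
    · exact sum_mem fun i hi => hf i (Finset.mem_insert_of_mem hi)

/-- The step of the induction. -/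
theorem step [CharP D 2] (sg : G →* D) (hE : ∀ H : Subgroup G, H ≠ ⊥ → Nonempty (Ell sg H))
    (L : Subgroup G) (K : CX sg L) {r : ℕ} (g : Fin r → G)
    (hg : ∀ i j, g i * (g j)⁻¹ ∈ L → i = j) (d : Fin r → D)
    (hd : ∀ i, d i ∈ DS sg (L : Set G)) (h0 : ∑ i, d i * sg (g i) = 0) (i₀ : Fin r)
    (hi₀ : d i₀ ≠ 0)
    (ih : ∀ d' : Fin r → D, (∀ i, d' i ∈ DS sg (L : Set G)) → ∑ i, d' i * sg (g i) = 0 →
      ∑ i, K.cx (d' i) < ∑ i, K.cx (d i) → ∀ i, d' i = 0) : False := by
  classical
  have hex : ∀ i, ∃ (R : Subgroup G) (a : G), R ≤ L ∧ a ∈ L ∧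
      d i * sg a⁻¹ ∈ DS sg (R : Set G) ∧ ∀ (H : Subgroup G) (E : Ell sg H), R ≤ H →
      (∀ n, (E.L (d i * sg a⁻¹)).coeff n ∈ DS sg (L : Set G)) ∧
      (∀ n, K.cx ((E.L (d i * sg a⁻¹)).coeff n) ≤ K.cx (d i)) ∧
      (d i ≠ 0 → (∃ r ∈ R, E.c r ≠ 0) → ∀ n, K.cx ((E.L (d i * sg a⁻¹)).coeff n) < K.cx (d i)) ∧
      (d i = 0 → R = ⊥ ∧ a = (g i)⁻¹ * (g i)) := by
    intro i
    by_cases hi : d i = 0
    · refine ⟨⊥, (g i)⁻¹ * (g i), bot_le, ?_, ?_, ?_⟩
      · rw [inv_mul_cancel]
        exact L.one_mem
      · rw [hi, zero_mul]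
        exact zero_mem _
      · intro H E _
        rw [hi, zero_mul, L_zero]
        refine ⟨fun n => ?_, fun n => ?_, fun h => absurd rfl h, fun _ => ⟨rfl, rfl⟩⟩
        · rw [HahnSeries.coeff_zero]
          exact zero_mem _
        · rw [HahnSeries.coeff_zero]
    · obtain ⟨R, a, h1, h2, h3, _, h4⟩ := K.ex (d i) (hd i) hi
      refine ⟨R, a, h1, h2, h3, ?_⟩
      intro H E hRH
      obtain ⟨k1, k2, k3⟩ := h4 1 L.one_mem H E (by
        intro r hr
        rw [one_mul, inv_one, mul_one]
        exact hRH hr)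
      rw [map_one, one_mul, inv_one, map_one, mul_one] at k1 k2 k3
      refine ⟨k1, fun n => ?_, fun _ hr => ?_, fun h => absurd h hi⟩
      · have := k2 {n}
        rwa [Finset.sum_singleton] at this
      · apply k3
        obtain ⟨r, hr, hc⟩ := hr
        exact ⟨r, hr, by rwa [one_mul, mul_one]⟩
  choose R a hRL haL hx hEx using hex
  set γ := a i₀ * g i₀ with hγ
  set h : Fin r → G := fun i => a i * g i * γ⁻¹ with hh
  set H : Subgroup G := Subgroup.closure ({x | ∃ i, d i ≠ 0 ∧ x ∈ R i} ∪
    {x | ∃ i, d i ≠ 0 ∧ x = h i}) with hH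
  have hRH : ∀ i, d i ≠ 0 → R i ≤ H := by
    intro i hi x hx'
    exact Subgroup.subset_closure (Or.inl ⟨i, hi, hx'⟩)
  have hhH : ∀ i, d i ≠ 0 → h i ∈ H := by
    intro i hi
    exact Subgroup.subset_closure (Or.inr ⟨i, hi, rfl⟩)
  by_cases hbot : H = ⊥
  · -- the trivial case
    have huniq : ∀ i, d i ≠ 0 → i = i₀ := by
      intro i hi
      have h1 : h i = 1 := by
        have := hhH i hi
        rwa [hbot, Subgroup.mem_bot] at this
      have h2 : a i * g i = a i₀ * g i₀ := by
        rwa [hh, mul_inv_eq_one] at h1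
      apply hg
      have h3 : g i * (g i₀)⁻¹ = (a i)⁻¹ * a i₀ := by
        rw [mul_inv_eq_iff_eq_mul, mul_assoc, ← h2, inv_mul_cancel_left]
      rw [h3]
      exact L.mul_mem (L.inv_mem (haL i)) (haL i₀)
    rw [Finset.sum_eq_single i₀] at h0
    · exact (mul_ne_zero hi₀ (sg_ne_zero sg _)) h0
    · intro i _ hi
      by_cases hdi : d i = 0
      · rw [hdi, zero_mul]
      · exact absurd (huniq i hdi) hi
    · intro hi
      exact absurd (Finset.mem_univ _) hi
  · obtain ⟨E⟩ := hE H hbot
    have hRH' : ∀ i, R i ≤ H := by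
      intro i
      by_cases hi : d i = 0
      · -- need any expansion
        have hsub : ∀ (H' : Subgroup G) (E' : Ell sg H'), R i ≤ H' → R i = ⊥ :=
          fun H' E' hR' => ((hEx i H' E' hR').2.2.2 hi).1
        by_cases hR : R i = ⊥
        · rw [hR]
          exact bot_le
        · obtain ⟨E'⟩ := hE (R i) hR
          exact absurd (hsub (R i) E' le_rfl) hR
      · exact hRH i hi
    set X : Fin r → HahnSeries ℤ D := fun i => E.L (d i * sg (a i)⁻¹) with hX
    set d' : ℤ → Fin r → D := fun n i => (X i).coeff (n - E.c (h i)) * sg (a i) with hd'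
    have hd'L : ∀ n i, d' n i ∈ DS sg (L : Set G) := by
      intro n i
      exact mul_mem ((hEx i H E (hRH' i)).1 _) (sg_mem_DS (haL i))
    have hcx : ∀ n i, K.cx (d' n i) = K.cx ((X i).coeff (n - E.c (h i))) := by
      intro n i
      exact K.mulg _ ((hEx i H E (hRH' i)).1 _) _ (haL i)
    have hle : ∀ n i, K.cx (d' n i) ≤ K.cx (d i) := by
      intro n i
      rw [hcx]
      exact (hEx i H E (hRH' i)).2.1 _
    have hzero : ∀ n i, d i = 0 → d' n i = 0 := by
      intro n i hi
      change (E.L (d i * sg (a i)⁻¹)).coeff _ * _ = 0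
      rw [hi, zero_mul, L_zero, HahnSeries.coeff_zero, zero_mul]
    -- the relation for the coefficients
    have hrel : ∀ n, ∑ i, d' n i * sg (g i) = 0 := by
      intro n
      have e1 : ∑ i ∈ Finset.univ.filter (fun i => d i ≠ 0), (d i * sg (a i)⁻¹) * sg (h i) = 0 := by
        have e2 : ∀ i, (d i * sg (a i)⁻¹) * sg (h i) = d i * sg (g i) * sg γ⁻¹ := by
          intro i
          change (d i * sg (a i)⁻¹) * sg (a i * g i * γ⁻¹) = _
          rw [map_mul, map_mul, mul_assoc (d i), ← mul_assoc (sg (a i)⁻¹), ← mul_assoc (sg (a i)⁻¹),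
            sg_cancel', one_mul, mul_assoc (d i)]
        simp only [e2]
        rw [← Finset.sum_mul]
        have e3 : ∑ i ∈ Finset.univ.filter (fun i => d i ≠ 0), d i * sg (g i) =
            ∑ i, d i * sg (g i) := by
          apply Finset.sum_subset (Finset.filter_subset _ _)
          intro i _ hi
          have : d i = 0 := by
            by_contra hne
            exact hi (Finset.mem_filter.mpr ⟨Finset.mem_univ _, hne⟩)
          rw [this, zero_mul]
        rw [e3, h0, zero_mul]
      have e2 := congrArg E.L e1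
      rw [L_zero, L_sum] at e2
      · have e3 : ∀ i ∈ Finset.univ.filter (fun i => d i ≠ 0),
            E.L ((d i * sg (a i)⁻¹) * sg (h i)) =
              X i * HahnSeries.single (E.c (h i)) (sg (h i)) := by
          intro i hi
          have hi' := (Finset.mem_filter.mp hi).2
          rw [E.L_mul _ (DS_mono (hRH i hi') (hx i)) _ (sg_mem_DS (hhH i hi')),
            E.L_sg _ (hhH i hi')]
        rw [Finset.sum_congr rfl e3] at e2
        have e4 := congrArg (fun Y : HahnSeries ℤ D => Y.coeff n) e2
        simp only [HahnSeries.coeff_zero, HahnSeries.coeff_sum] at e4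
        have e5 : ∀ i, (X i * HahnSeries.single (E.c (h i)) (sg (h i))).coeff n =
            (X i).coeff (n - E.c (h i)) * sg (h i) := by
          intro i
          have := HahnSeries.coeff_mul_single_add (r := sg (h i)) (x := X i)
            (a := n - E.c (h i)) (b := E.c (h i))
          rwa [sub_add_cancel] at this
        simp only [e5] at e4
        have e6 := congrArg (fun z => z * sg γ) e4
        simp only [zero_mul, Finset.sum_mul] at e6
        have e7 : ∀ i, (X i).coeff (n - E.c (h i)) * sg (h i) * sg γ = d' n i * sg (g i) := by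
          intro i
          change (X i).coeff (n - E.c (h i)) * sg (a i * g i * γ⁻¹) * sg γ =
            (X i).coeff (n - E.c (h i)) * sg (a i) * sg (g i)
          rw [mul_assoc, ← map_mul, inv_mul_cancel_right, mul_assoc, ← map_mul]
        simp only [e7] at e6
        rw [← e6]
        symm
        apply Finset.sum_subset (Finset.filter_subset _ _)
        intro i _ hi
        have : d i = 0 := by
          by_contra hne
          exact hi (Finset.mem_filter.mpr ⟨Finset.mem_univ _, hne⟩)
        rw [hzero n i this, zero_mul]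
      · intro i hi
        have hi' := (Finset.mem_filter.mp hi).2
        exact mul_mem (DS_mono (hRH i hi') (hx i)) (sg_mem_DS (hhH i hi'))
    -- the total complexity drops
    have hlt : ∀ n, ∑ i, K.cx (d' n i) < ∑ i, K.cx (d i) := by
      intro n
      suffices hs : ∃ i, K.cx (d' n i) < K.cx (d i) by
        obtain ⟨i, hi⟩ := hs
        exact Finset.sum_lt_sum (fun i _ => hle n i) ⟨i, Finset.mem_univ _, hi⟩
      by_cases hA : ∃ i, d i ≠ 0 ∧ ∃ r ∈ R i, E.c r ≠ 0
      · obtain ⟨i, hi, hr⟩ := hA
        refine ⟨i, ?_⟩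
        rw [hcx]
        exact (hEx i H E (hRH' i)).2.2.1 hi hr _
      · push Not at hA
        have hker : ∀ i, d i ≠ 0 → X i = HahnSeries.single 0 (d i * sg (a i)⁻¹) := by
          intro i hi
          apply E.L_ker
          have hsub : (R i : Set G) ⊆ {x | x ∈ H ∧ E.c x = 0} :=
            fun x hx' => ⟨hRH i hi hx', hA i hi x hx'⟩
          exact DS_mono hsub (hx i)
        have hpos : ∀ i, d i ≠ 0 → n - E.c (h i) ≠ 0 → K.cx (d' n i) < K.cx (d i) := by
          intro i hi hn
          rw [hcx, hker i hi, HahnSeries.coeff_single_of_ne hn, K.zero]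
          exact K.pos _ (hd i) hi
        have h1 : h i₀ = 1 := by
          change a i₀ * g i₀ * γ⁻¹ = 1
          rw [hγ, mul_inv_cancel]
        have hc1 : E.c 1 = 0 := by
          have := E.c_mul 1 H.one_mem 1 H.one_mem
          rw [mul_one] at this
          linarith
        by_cases hn : n = 0
        · by_contra hcon
          push Not at hcon
          have hall : ∀ i, d i ≠ 0 → E.c (h i) = 0 := by
            intro i hi
            by_contra hne
            exact absurd (hpos i hi (by rw [hn]; omega)) (not_lt.mpr (hcon i))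
          have hcH : ∀ x ∈ H, E.c x = 0 := by
            intro x hx'
            rw [hH] at hx'
            have hinv : ∀ y ∈ H, E.c y⁻¹ = - E.c y := by
              intro y hy
              have := E.c_mul y hy y⁻¹ (H.inv_mem hy)
              rw [mul_inv_cancel, hc1] at this
              linarith
            have key : x ∈ H ∧ E.c x = 0 := by
              induction hx' using Subgroup.closure_induction with
              | mem x hx' =>
                refine ⟨Subgroup.subset_closure hx', ?_⟩
                rcases hx' with ⟨i, hi, hxi⟩ | ⟨i, hi, rfl⟩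
                · exact hA i hi x hxi
                · exact hall i hi
              | one => exact ⟨H.one_mem, hc1⟩
              | mul x y _ _ hx hy =>
                refine ⟨H.mul_mem hx.1 hy.1, ?_⟩
                rw [E.c_mul x hx.1 y hy.1, hx.2, hy.2, add_zero]
              | inv x _ hx =>
                refine ⟨H.inv_mem hx.1, ?_⟩
                rw [hinv x hx.1, hx.2, neg_zero]
            exact key.2
          have := hcH _ E.t_mem
          rw [E.t_one] at this
          exact one_ne_zero this
        · refine ⟨i₀, hpos i₀ hi₀ ?_⟩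
          rw [h1, hc1, sub_zero]
          exact hn
    have hall := fun n => ih (d' n) (hd'L n) (hrel n) (hlt n)
    have hX0 : X i₀ = 0 := by
      ext n
      have := hall (n + E.c (h i₀)) i₀
      change (X i₀).coeff (n + E.c (h i₀) - E.c (h i₀)) * sg (a i₀) = 0 at this
      rw [add_sub_cancel_right] at this
      exact (mul_eq_zero.mp this).resolve_right (sg_ne_zero sg _)
    have h2 := E.L_inj _ (DS_mono (hRH i₀ hi₀) (hx i₀)) hX0
    exact (mul_ne_zero hi₀ (sg_ne_zero sg _)) h2

end H63S

open H63S

/-- SIN: the translates of the skew field generated by a subgroup are independent. -/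
theorem sin (hCX : CxStmt) : SinStmt := by
  intro G D _ _ _ sg hE L r d g hd hg h0
  obtain ⟨K⟩ := hCX G D sg L
  have key : ∀ κ : K.T, ∀ d : Fin r → D, (∀ i, d i ∈ DS sg (L : Set G)) →
      ∑ i, d i * sg (g i) = 0 → ∑ i, K.cx (d i) = κ → ∀ i, d i = 0 := by
    intro κ
    induction κ using K.wf.induction with
    | _ κ ih =>
      intro d hd h0 hκ i
      by_contra hi
      refine step sg hE L K g hg d hd h0 i hi ?_
      intro d' hd' h0' hlt
      rw [hκ] at hlt
      exact ih _ hlt d' hd' h0' rfl
  exact key _ d hd h0 rfl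

end Pool.Agent.HF
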