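import Pool.Agent.HF.Stmts

/-!
# Squad HF: module SRC
-/

namespace Pool.Agent.HF

open Pool.Agent.Glue Pool.Agent.FB Pool.Agent.CD

namespace H63

variable {G D : Type} [Group G] [DivisionRing D]

theorem DS_mono {sg : G →* D} {S T : Set G} (h : S ⊆ T) : DS sg S ≤ DS sg T :=
  Subfield.closure_mono (Set.image_mono h)

theorem sg_mem_DS {sg : G →* D} {S : Set G} {g : G} (h : g ∈ S) : sg g ∈ DS sg S :=
  Subfield.subset_closure ⟨g, h, rfl⟩

theorem sg_cancel (sg : G →* D) (u : G) : sg u * sg u⁻¹ = 1 := by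
  rw [← map_mul, mul_inv_cancel, map_one]

theorem sg_cancel' (sg : G →* D) (u : G) : sg u⁻¹ * sg u = 1 := by
  rw [← map_mul, inv_mul_cancel, map_one]

theorem sg_ne_zero (sg : G →* D) (u : G) : sg u ≠ 0 := by
  intro h
  have := sg_cancel sg u
  rw [h, zero_mul] at this
  exact zero_ne_one this

theorem sg_inv (sg : G →* D) (u : G) : sg u⁻¹ = (sg u)⁻¹ :=
  eq_inv_of_mul_eq_one_left (sg_cancel' sg u)

theorem DS_conj {sg : G →* D} {S : Set G} {x : D} (hx : x ∈ DS sg S) (u : G) (T : Set G)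
    (hT : ∀ s ∈ S, u * s * u⁻¹ ∈ T) : sg u * x * sg u⁻¹ ∈ DS sg T := by
  unfold DS at hx
  induction hx using Subfield.closure_induction with
  | mem x hx =>
    obtain ⟨s, hs, rfl⟩ := hx
    rw [← map_mul, ← map_mul]
    exact sg_mem_DS (hT s hs)
  | one =>
    rw [mul_one, sg_cancel]
    exact one_mem _
  | add x y _ _ hx hy =>
    rw [mul_add, add_mul]
    exact add_mem hx hy
  | neg x _ hx =>
    rw [mul_neg, neg_mul]
    exact neg_mem hx
  | inv x _ hx =>
    have : sg u * x⁻¹ * sg u⁻¹ = (sg u * x * sg u⁻¹)⁻¹ := by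
      rw [mul_inv_rev, mul_inv_rev, sg_inv, inv_inv, mul_assoc]
    rw [this]
    exact inv_mem hx
  | mul x y _ _ hx hy =>
    have : sg u * (x * y) * sg u⁻¹ = (sg u * x * sg u⁻¹) * (sg u * y * sg u⁻¹) := by
      have h := sg_cancel' sg u
      calc sg u * (x * y) * sg u⁻¹ = sg u * x * 1 * y * sg u⁻¹ := by
            rw [mul_one, mul_assoc (sg u) x y]
        _ = _ := by
            rw [← h]
            simp only [mul_assoc]
    rw [this]
    exact mul_mem hx hy

end H63

open H63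

/-- SRC: source and translation of an expression. -/
theorem src : SrcStmt := by
  intro G D _ _ _ sg S e
  induction e with
  | of g =>
    intro h
    refine ⟨bot_le, h, ?_, fun _ => Or.inr rfl⟩
    change sg g * sg g⁻¹ ∈ _
    rw [sg_cancel]
    exact one_mem _
  | zero =>
    intro _
    refine ⟨bot_le, S.one_mem, ?_, fun _ => Or.inl rfl⟩
    change (0 : D) * _ ∈ _
    rw [zero_mul]
    exact zero_mem _
  | add a b iha ihb =>
    rintro ⟨ha, hb⟩
    obtain ⟨a1, a2, a3, a4⟩ := iha ha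
    obtain ⟨b1, b2, b3, b4⟩ := ihb hb
    refine ⟨?_, a2, ?_, ?_⟩
    · refine sup_le (sup_le a1 b1) ?_
      rw [Subgroup.zpowers_le]
      exact S.mul_mem b2 (S.inv_mem a2)
    · have e1 : (Ex.add a b).val sg * sg (Ex.add a b).tr⁻¹ =
          a.val sg * sg a.tr⁻¹ + (b.val sg * sg b.tr⁻¹) * sg (b.tr * a.tr⁻¹) := by
        change (a.val sg + b.val sg) * sg a.tr⁻¹ = _
        rw [add_mul, map_mul, mul_assoc (b.val sg), ← mul_assoc (sg b.tr⁻¹), sg_cancel', one_mul]
      rw [e1]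
      refine add_mem (DS_mono ?_ a3) (mul_mem (DS_mono ?_ b3) (sg_mem_DS ?_))
      · exact (le_sup_left.trans le_sup_left : a.src ≤ (Ex.add a b).src)
      · exact (le_sup_right.trans le_sup_left : b.src ≤ (Ex.add a b).src)
      · exact (le_sup_right : Subgroup.zpowers (b.tr * a.tr⁻¹) ≤ (Ex.add a b).src)
          (Subgroup.mem_zpowers _)
    · intro h
      have h1 : a.src ⊔ b.src ⊔ Subgroup.zpowers (b.tr * a.tr⁻¹) = ⊥ := h
      rw [sup_eq_bot_iff, sup_eq_bot_iff, Subgroup.zpowers_eq_bot] at h1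
      obtain ⟨⟨h1, h2⟩, h3⟩ := h1
      have h4 : b.tr = a.tr := by
        rwa [mul_inv_eq_one] at h3
      change a.val sg + b.val sg = 0 ∨ a.val sg + b.val sg = sg a.tr
      rcases a4 h1 with ha | ha <;> rcases b4 h2 with hb | hb
      · left
        rw [ha, hb, add_zero]
      · right
        rw [ha, hb, zero_add, h4]
      · right
        rw [ha, hb, add_zero]
      · left
        rw [ha, hb, h4]
        exact CharTwo.add_self_eq_zero _
  | mul a b iha ihb =>
    rintro ⟨ha, hb⟩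
    obtain ⟨a1, a2, a3, a4⟩ := iha ha
    obtain ⟨b1, b2, b3, b4⟩ := ihb hb
    refine ⟨?_, S.mul_mem a2 b2, ?_, ?_⟩
    · refine sup_le a1 ?_
      rw [Subgroup.map_le_iff_le_comap]
      intro x hx
      change a.tr * x * a.tr⁻¹ ∈ S
      exact S.mul_mem (S.mul_mem a2 (b1 hx)) (S.inv_mem a2)
    · have e1 : (Ex.mul a b).val sg * sg (Ex.mul a b).tr⁻¹ =
          (a.val sg * sg a.tr⁻¹) * (sg a.tr * (b.val sg * sg b.tr⁻¹) * sg a.tr⁻¹) := by
        change (a.val sg * b.val sg) * sg (a.tr * b.tr)⁻¹ = _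
        rw [mul_inv_rev, map_mul]
        have h := sg_cancel' sg a.tr
        calc a.val sg * b.val sg * (sg b.tr⁻¹ * sg a.tr⁻¹) =
            a.val sg * 1 * b.val sg * (sg b.tr⁻¹ * sg a.tr⁻¹) := by rw [mul_one]
          _ = _ := by
            rw [← h]
            simp only [mul_assoc]
      rw [e1]
      refine mul_mem (DS_mono ?_ a3) (DS_conj b3 _ _ ?_)
      · exact (le_sup_left : a.src ≤ (Ex.mul a b).src)
      · intro s hs
        exact (le_sup_right : b.src.map (MulAut.conj a.tr).toMonoidHom ≤ (Ex.mul a b).src)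
          ⟨s, hs, rfl⟩
    · intro h
      have h1 : a.src ⊔ b.src.map (MulAut.conj a.tr).toMonoidHom = ⊥ := h
      rw [sup_eq_bot_iff, Subgroup.map_eq_bot_iff_of_injective _ (MulAut.conj a.tr).injective] at h1
      change a.val sg * b.val sg = 0 ∨ a.val sg * b.val sg = sg (a.tr * b.tr)
      rcases a4 h1.1 with ha | ha
      · left
        rw [ha, zero_mul]
      · rcases b4 h1.2 with hb | hb
        · left
          rw [hb, mul_zero]
        · right
          rw [ha, hb, map_mul]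
  | inv a iha =>
    intro ha
    obtain ⟨a1, a2, a3, a4⟩ := iha ha
    refine ⟨?_, S.inv_mem a2, ?_, ?_⟩
    · change a.src.map (MulAut.conj a.tr⁻¹).toMonoidHom ≤ S
      rw [Subgroup.map_le_iff_le_comap]
      intro x hx
      change a.tr⁻¹ * x * a.tr⁻¹⁻¹ ∈ S
      exact S.mul_mem (S.mul_mem (S.inv_mem a2) (a1 hx)) (S.inv_mem (S.inv_mem a2))
    · have e1 : (Ex.inv a).val sg * sg (Ex.inv a).tr⁻¹ =
          (sg a.tr⁻¹ * (a.val sg * sg a.tr⁻¹) * sg a.tr⁻¹⁻¹)⁻¹ := by
        change (a.val sg)⁻¹ * sg a.tr⁻¹⁻¹ = _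
        have h : sg a.tr⁻¹ * (a.val sg * sg a.tr⁻¹) * sg a.tr⁻¹⁻¹ = sg a.tr⁻¹ * a.val sg := by
          rw [mul_assoc, mul_assoc, sg_cancel, mul_one]
        rw [h, mul_inv_rev, inv_inv, sg_inv, inv_inv]
      rw [e1]
      refine inv_mem (DS_conj a3 _ _ ?_)
      intro s hs
      exact ⟨s, hs, rfl⟩
    · intro h
      have h1 : a.src.map (MulAut.conj a.tr⁻¹).toMonoidHom = ⊥ := h
      rw [Subgroup.map_eq_bot_iff_of_injective _ (MulAut.conj a.tr⁻¹).injective] at h1
      change (a.val sg)⁻¹ = 0 ∨ (a.val sg)⁻¹ = sg a.tr⁻¹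
      rcases a4 h1 with ha | ha
      · left
        rw [ha, inv_zero]
      · right
        rw [ha, sg_inv]

end Pool.Agent.HF
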